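import Mathlib
import Pool.Agent.U945.LA.Tow
import Pool.Agent.U945.LA.Pack

/-!
# Towers over all algebraic bases

Let `z = b ^ c` with `b > 0`, `b ≠ 1` real algebraic and `c` real algebraic irrational, for instance
`z = √2 ^ √2`; the number of the problem is `w = √2 ^ z`.

(1) For all prime numbers `p`, with at most three exceptions, ALL numbers
`(p z ^ α e ^ (β + γ π)) ^ (δ z + ε)` with real algebraic `α`, `β`, `γ`, `δ ≠ 0`, `ε` are transcendental.
The same holds for one of any four multiplicatively independent positive algebraic numbers instead of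
`p`.

(2) All prime numbers `p`, with at most two exceptions, are no value `(x z ^ α e ^ (β + γ π)) ^ (δ z)` with
real algebraic `x > 0`, `α`, `β`, `γ`, `δ`, and the same for one of any three multiplicatively independent
positive algebraic numbers.

(3) Several towers. Let `ℓ_1, …, ℓ_k` be linear forms in `1` and logarithms of algebraic numbers with
algebraic coefficients, for instance `ℓ_j = c_j log b_j`, and `z_j = e ^ ℓ_j`. The algebraic numbers
`x ≠ 0` such that, for some transcendental `ξ = α + β_1 z_1 + ⋯ + β_k z_k`, some value of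
`(x z_1 ^ a_1 ⋯ z_k ^ a_k e ^ (b + c π)) ^ ξ` is of the form `e ^ w` with `w` in `LogForms` have rank at
most `k (k + 2)`, and they contain at most `C ^ ((k + 1) ^ 2)` pairs `(x, y)` with `a x + b y = 1`, where
`C` is absolute. The algebraic numbers which are values of some `e ^ (z_j w)`, `w` in `LogForms`, have
rank at most `2 k` if the `z_j` are transcendental.

(4) Let `A` be the union of these two sets. For every algebraic subset `Z` of `G_m^d` over `ℂ` the points
of `Z` with coordinates in `A` are contained in finitely many cosets of algebraic subgroups which are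
contained in `Z`.

Ingredients: the hyperplane case of the linear subgroup theorem of Waldschmidt and Roy, Baker's theorem,
the theorem on the unit equation in groups of finite rank of algebraic numbers (Laurent), proved in
`Pool.Agent.U945.LA`, and for lines the theorem of Beukers and Schlickewei.
-/

set_option autoImplicit false

namespace Pool.Agent.Results.MP_93d8d2_nt.AlgebraicBases

open Pool.Agent.U945.LA (RkLe line_set pack UM UM_rank Vt Vt_rank gs primes_enc)
open Pool.Agent.H301R2.SSE (QB mem_QB Lt Lt_one Lt_alg Lt_log Lt_mul)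

/-- The linear combinations, with algebraic coefficients, of `1` and of logarithms of algebraic
numbers. If `e ^ w` is algebraic, then `w` is in `LogForms`. -/
noncomputable def LogForms : Submodule (algebraicClosure ℚ ℂ) ℂ :=
  Submodule.span (algebraicClosure ℚ ℂ) ({1} ∪ {z : ℂ | IsAlgebraic ℚ (Complex.exp z)})

/-- `l` is a logarithm of `x`, up to a rational multiple of `2 π i` -/
def IsLog (x : ℂˣ) (l : ℂ) : Prop := ∃ n : ℕ, 0 < n ∧ Complex.exp (n * l) = (x : ℂ) ^ n

/-- The algebraic `x ≠ 0` such that `ξ (l + ∑ a_j ℓ_j + b + c π)` is in `LogForms` for some logarithm `l`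
of `x` and some transcendental `ξ = α + ∑ β_j e ^ ℓ_j`, all coefficients algebraic. -/
def Bases {k : ℕ} (ell : Fin k → ℂ) : Set ℂˣ :=
  {x | IsAlgebraic ℚ (x : ℂ) ∧ ∃ (l α b c : ℂ) (β a : Fin k → ℂ), IsLog x l ∧ IsAlgebraic ℚ α ∧
    IsAlgebraic ℚ b ∧ IsAlgebraic ℚ c ∧ (∀ j, IsAlgebraic ℚ (β j)) ∧ (∀ j, IsAlgebraic ℚ (a j)) ∧
    Transcendental ℚ (α + ∑ j, β j * Complex.exp (ell j)) ∧
    (α + ∑ j, β j * Complex.exp (ell j)) * (l + ∑ j, a j * ell j + b + c * Real.pi) ∈ LogForms}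

/-- The algebraic `y ≠ 0` which are values of some `e ^ (z_j w)`, `z_j = e ^ ℓ_j`, `w` in `LogForms`. -/
def Values {k : ℕ} (ell : Fin k → ℂ) : Set ℂˣ :=
  {y | IsAlgebraic ℚ (y : ℂ) ∧ ∃ (j : Fin k) (l w : ℂ), IsLog y l ∧ w ∈ LogForms ∧
    l = Complex.exp (ell j) * w}

/-- All towers with the (real) base `x`, see (1). -/
def AllTranscendental (z x : ℝ) : Prop :=
  ∀ α β γ δ ε : ℝ, IsAlgebraic ℚ α → IsAlgebraic ℚ β → IsAlgebraic ℚ γ → IsAlgebraic ℚ δ →
    IsAlgebraic ℚ ε → δ ≠ 0 →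
    Transcendental ℚ ((x * z ^ α * Real.exp 1 ^ (β + γ * Real.pi)) ^ (δ * z + ε))

/-- `y` is not a value of a tower, see (2). -/
def NoValue (z y : ℝ) : Prop :=
  ∀ x α β γ δ : ℝ, 0 < x → IsAlgebraic ℚ x → IsAlgebraic ℚ α → IsAlgebraic ℚ β → IsAlgebraic ℚ γ →
    IsAlgebraic ℚ δ → y ≠ (x * z ^ α * Real.exp 1 ^ (β + γ * Real.pi)) ^ (δ * z)

/-- `A` contains at most `B` multiplicatively independent elements. -/
def RankAtMost (A : Set ℂˣ) (B : ℕ) : Prop :=
  ∀ (n : ℕ) (X : Fin n → ℂˣ), (∀ j, X j ∈ A) → (∀ k : Fin n → ℤ, ∏ j, X j ^ k j = 1 → k = 0) → n ≤ B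

/-- The coset of an algebraic subgroup of the torus: the `z` such that `z ^ m = y ^ m` for all `m` in
the finite set `M` of integral vectors. -/
def Coset {d : ℕ} (y : Fin d → ℂˣ) (M : Finset (Fin d → ℤ)) : Set (Fin d → ℂˣ) :=
  {z | ∀ m ∈ M, ∏ i, z i ^ m i = ∏ i, y i ^ m i}

/-- The algebraic subset of the torus defined by the polynomials `P j`. -/
def Zeros {d s : ℕ} (P : Fin s → MvPolynomial (Fin d) ℂ) : Set (Fin d → ℂˣ) :=
  {z | ∀ j, MvPolynomial.eval (fun i => (z i : ℂ)) (P j) = 0}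

theorem sp_mem {n : ℕ} (f : Fin n → ℂ) {a : ℂ} (ha : IsAlgebraic ℚ a) (i : Fin n) :
    a * f i ∈ Submodule.span QB (Set.range f) := by
  have := (Submodule.span QB (Set.range f)).smul_mem (⟨a, mem_QB.2 ha⟩ : QB)
    (Submodule.subset_span ⟨i, rfl⟩ : f i ∈ Submodule.span QB (Set.range f))
  rw [Algebra.smul_def] at this
  exact this

theorem bases_rank {k : ℕ} {ell : Fin k → ℂ} (hell : ∀ j, ell j ∈ LogForms) :
    RkLe (Bases ell) (k * (k + 2)) := by
  classical
  set u : Fin (k + 1) → ℂ := Fin.cons 1 (fun j => Complex.exp (ell j)) with hu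
  set m : Fin (k + 2) → ℂ := Fin.cons 1 (Fin.cons (Real.pi : ℂ) ell) with hm
  set U : Submodule QB ℂ := Submodule.span QB (Set.range u) with hU
  set M : Submodule QB ℂ := Submodule.span QB (Set.range m) with hM
  have hUf : FiniteDimensional QB U := FiniteDimensional.span_of_finite QB (Set.finite_range _)
  have hMf : FiniteDimensional QB M := FiniteDimensional.span_of_finite QB (Set.finite_range _)
  have hUr : Module.finrank QB U ≤ k + 1 := by
    have := finrank_range_le_card (R := QB) u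
    rwa [Fintype.card_fin] at this
  have hMr : Module.finrank QB M ≤ k + 2 := by
    have := finrank_range_le_card (R := QB) m
    rwa [Fintype.card_fin] at this
  have hMLt : M ≤ Lt := by
    rw [hM, Submodule.span_le]
    rintro _ ⟨i, rfl⟩
    refine Fin.cases ?_ (fun i => Fin.cases ?_ (fun i => ?_) i) i
    · exact Lt_one
    · exact Pool.Agent.HP778.pi_mem_Lt
    · exact hell i
  have h1 := UM_rank U M (Submodule.subset_span ⟨0, rfl⟩) (Submodule.subset_span ⟨0, rfl⟩)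
    (Submodule.subset_span ⟨1, rfl⟩) hMLt
  have h2 : Module.finrank QB U * (Module.finrank QB U - 1) ≤ (k + 1) * k :=
    Nat.mul_le_mul hUr (by omega)
  have h3 : (k + 1) * k + k = k * (k + 2) := by ring
  refine (h1.weaken (by omega)).mono ?_
  rintro x ⟨hx, l, α, b, c, β, a, hl, hα, hb, hc, hβ, ha, htr, h⟩
  refine ⟨hx, l, hl, α + ∑ j, β j * Complex.exp (ell j), ?_, htr,
    ∑ j, a j * ell j + b + c * Real.pi, ?_, ?_⟩
  · refine add_mem ?_ (sum_mem fun j _ => sp_mem u (hβ j) j.succ)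
    have := sp_mem u hα 0
    rwa [hu, Fin.cons_zero, mul_one] at this
  · refine add_mem (add_mem (sum_mem fun j _ => sp_mem m (ha j) j.succ.succ) ?_) (sp_mem m hc 1)
    have := sp_mem m hb 0
    rwa [hm, Fin.cons_zero, mul_one] at this
  · have e1 : l + (∑ j, a j * ell j + b + c * (Real.pi : ℂ)) =
        l + ∑ j, a j * ell j + b + c * Real.pi := by ring
    rw [e1]
    exact h

theorem values_rank {k : ℕ} {ell : Fin k → ℂ}
    (htr : ∀ j, Transcendental ℚ (Complex.exp (ell j))) : RkLe (Values ell) (2 * k) := by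
  classical
  have key : ∀ S : Finset (Fin k), RkLe {y | ∃ j ∈ S, y ∈ Vt (Complex.exp (ell j))}
      (2 * S.card) := by
    intro S
    induction S using Finset.induction_on with
    | empty =>
      refine (Pool.Agent.U945.LA.rkLe_empty.weaken (Nat.zero_le _)).mono ?_
      rintro y ⟨j, hj, -⟩
      exact absurd hj (Finset.notMem_empty j)
    | insert i S hi ih =>
      have h1 := (Vt_rank (htr i)).union ih
      rw [Finset.card_insert_of_notMem hi]
      refine (h1.weaken (by omega)).mono ?_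
      rintro y ⟨j, hj, hy⟩
      rcases Finset.mem_insert.1 hj with rfl | hj
      · exact Or.inl hy
      · exact Or.inr ⟨j, hj, hy⟩
  have h1 := key Finset.univ
  rw [Finset.card_univ, Fintype.card_fin] at h1
  refine h1.mono ?_
  rintro y ⟨hy, j, l, w, hl, hw, h⟩
  exact ⟨j, Finset.mem_univ j, hy, l, hl, w, hw, h⟩

theorem real_alg {x : ℝ} (h : IsAlgebraic ℚ x) : IsAlgebraic ℚ (x : ℂ) := h.algebraMap (A := ℂ)

theorem units_indep {n : ℕ} {x : Fin n → ℝ} {u : Fin n → ℂˣ} (hu : ∀ i, (u i : ℂ) = x i)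
    (hx : ∀ k : Fin n → ℤ, ∏ i, x i ^ k i = 1 → k = 0) (k : Fin n → ℤ)
    (hk : ∏ i, u i ^ k i = 1) : k = 0 := by
  apply hx
  have h1 := congrArg (fun z : ℂˣ => (z : ℂ)) hk
  simp only [Units.coe_prod, Units.val_one, Units.val_zpow_eq_zpow_val] at h1
  rw [Finset.prod_congr rfl fun i _ => by rw [hu i]] at h1
  exact_mod_cast h1

theorem rpow_log {x z α β γ v : ℝ} (hx : 0 < x) (hz : 0 < z) :
    (x * z ^ α * Real.exp 1 ^ (β + γ * Real.pi)) ^ v =
      Real.exp ((Real.log x + α * Real.log z + (β + γ * Real.pi)) * v) := by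
  have hpos : 0 < x * z ^ α * Real.exp 1 ^ (β + γ * Real.pi) :=
    mul_pos (mul_pos hx (Real.rpow_pos_of_pos hz _)) (Real.rpow_pos_of_pos (Real.exp_pos 1) _)
  rw [Real.rpow_def_of_pos hpos, Real.log_mul (mul_pos hx (Real.rpow_pos_of_pos hz _)).ne'
    (Real.rpow_pos_of_pos (Real.exp_pos 1) _).ne',
    Real.log_mul hx.ne' (Real.rpow_pos_of_pos hz _).ne', Real.log_rpow hz,
    Real.log_rpow (Real.exp_pos 1), Real.log_exp, mul_one]

theorem log_unit {x : ℝ} (hx : 0 < x) {u : ℂˣ} (hu : (u : ℂ) = x) : IsLog u (Real.log x : ℝ) := by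
  refine ⟨1, one_pos, ?_⟩
  rw [Nat.cast_one, one_mul, pow_one, hu, ← Complex.ofReal_exp, Real.exp_log hx]

/-- Gelfond-Schneider -/
theorem z_tr {b c : ℝ} (hb : 0 < b) (hb1 : b ≠ 1) (hba : IsAlgebraic ℚ b) (hca : IsAlgebraic ℚ c)
    (hc : Irrational c) : Transcendental ℚ ((b ^ c : ℝ) : ℂ) := by
  intro h
  have h1 : ((Real.log b : ℝ) : ℂ) = 0 := by
    refine gs (β := (c : ℂ)) (real_alg hca) (fun q hq => hc ⟨q, by exact_mod_cast hq.symm⟩) ?_ ?_
    · rw [← Complex.ofReal_exp, Real.exp_log hb]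
      exact real_alg hba
    · rw [Real.rpow_def_of_pos hb, Complex.ofReal_exp] at h
      rw [mul_comm]
      push_cast at h
      exact h
  have h2 : Real.log b = 0 := by exact_mod_cast h1
  rcases Real.log_eq_zero.1 h2 with h3 | h3 | h3
  · exact hb.ne' h3
  · exact hb1 h3
  · linarith

section
variable {b c : ℝ} (hb : 0 < b) (hb1 : b ≠ 1) (hba : IsAlgebraic ℚ b) (hca : IsAlgebraic ℚ c)
  (hc : Irrational c)

/-- the form `c log b` -/
noncomputable def lf (b c : ℝ) : Fin 1 → ℂ := fun _ => ((c * Real.log b : ℝ) : ℂ)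

include hb in
theorem exp_lf (j : Fin 1) : Complex.exp (lf b c j) = ((b ^ c : ℝ) : ℂ) := by
  rw [lf, ← Complex.ofReal_exp, Real.rpow_def_of_pos hb, mul_comm c]

include hb hba hca in
theorem lf_mem (j : Fin 1) : lf b c j ∈ LogForms := by
  rw [lf]
  push_cast
  refine Lt_mul (real_alg hca) (Lt_log ?_)
  rw [← Complex.ofReal_exp, Real.exp_log hb]
  exact real_alg hba

include hb hb1 hba hca hc in
theorem mem_bases {x : ℝ} (hx : 0 < x) (hxa : IsAlgebraic ℚ x) {u : ℂˣ} (hu : (u : ℂ) = x)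
    (h : ¬ AllTranscendental (b ^ c) x) : u ∈ Bases (lf b c) := by
  unfold AllTranscendental at h
  push Not at h
  obtain ⟨α, β, γ, δ, ε, hα, hβ, hγ, hδ, hε, hδ0, h⟩ := h
  have hz : 0 < b ^ c := Real.rpow_pos_of_pos hb c
  have hlz : Real.log (b ^ c) = c * Real.log b := Real.log_rpow hb c
  have h1 := not_not.1 h
  rw [rpow_log hx hz, hlz] at h1
  have h2 := real_alg h1
  rw [Complex.ofReal_exp] at h2
  refine ⟨by rw [hu]; exact real_alg hxa, (Real.log x : ℝ), ε, β, γ, fun _ => δ, fun _ => α,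
    log_unit hx hu, real_alg hε, real_alg hβ, real_alg hγ, fun _ => real_alg hδ,
    fun _ => real_alg hα, ?_, ?_⟩
  · rw [Fin.sum_univ_one, exp_lf hb]
    intro h3
    apply z_tr hb hb1 hba hca hc
    have hδc : (δ : ℂ) ≠ 0 := by exact_mod_cast hδ0
    have e1 : ((b ^ c : ℝ) : ℂ) = (δ : ℂ)⁻¹ * ((ε + δ * ((b ^ c : ℝ) : ℂ)) - ε) := by
      field_simp
      ring
    rw [e1]
    exact (real_alg hδ).inv.mul (h3.sub (real_alg hε))
  · rw [Fin.sum_univ_one, Fin.sum_univ_one, exp_lf hb]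
    have h3 := Lt_log h2
    have e1 : (((Real.log x + α * (c * Real.log b) + (β + γ * Real.pi)) * (δ * b ^ c + ε) : ℝ) : ℂ)
        = ((ε : ℂ) + δ * ((b ^ c : ℝ) : ℂ)) *
          ((Real.log x : ℝ) + α * lf b c 0 + β + γ * Real.pi) := by
      rw [lf]
      push_cast
      ring
    rw [e1] at h3
    exact h3

include hb hba hca in
theorem mem_values {y : ℝ} (hy : 0 < y) (hya : IsAlgebraic ℚ y) {u : ℂˣ} (hu : (u : ℂ) = y)
    (h : ¬ NoValue (b ^ c) y) : u ∈ Values (lf b c) := by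
  unfold NoValue at h
  push Not at h
  obtain ⟨x, α, β, γ, δ, hx, hxa, hα, hβ, hγ, hδ, h⟩ := h
  have hz : 0 < b ^ c := Real.rpow_pos_of_pos hb c
  have hlz : Real.log (b ^ c) = c * Real.log b := Real.log_rpow hb c
  rw [rpow_log hx hz, hlz] at h
  refine ⟨by rw [hu]; exact real_alg hya, 0, (Real.log y : ℝ),
    δ * ((Real.log x : ℝ) + α * lf b c 0 + (β + γ * Real.pi)), log_unit hy hu, ?_, ?_⟩
  · refine Lt_mul (real_alg hδ) (add_mem (add_mem (Lt_log ?_) (Lt_mul (real_alg hα)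
      (lf_mem hb hba hca 0))) (add_mem (Lt_alg (real_alg hβ)) (Lt_mul (real_alg hγ)
      Pool.Agent.HP778.pi_mem_Lt)))
    rw [← Complex.ofReal_exp, Real.exp_log hx]
    exact real_alg hxa
  · rw [exp_lf hb, h, Real.log_exp, lf]
    push_cast
    ring

include hb hb1 hba hca hc in
theorem four {x : Fin 4 → ℝ} (hx : ∀ i, 0 < x i) (hxa : ∀ i, IsAlgebraic ℚ (x i))
    (hmi : ∀ k : Fin 4 → ℤ, ∏ i, x i ^ k i = 1 → k = 0) :
    ∃ i, AllTranscendental (b ^ c) (x i) := by
  by_contra hcon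
  push Not at hcon
  have hne : ∀ i, ((x i : ℝ) : ℂ) ≠ 0 := fun i => by exact_mod_cast (hx i).ne'
  have h1 := bases_rank (lf_mem hb hba hca) 4 (fun i => Units.mk0 _ (hne i))
    (fun i => mem_bases hb hb1 hba hca hc (hx i) (hxa i) rfl (hcon i))
    (units_indep (fun i => rfl) hmi)
  omega

include hb hb1 hba hca hc in
theorem three {x : Fin 3 → ℝ} (hx : ∀ i, 0 < x i) (hxa : ∀ i, IsAlgebraic ℚ (x i))
    (hmi : ∀ k : Fin 3 → ℤ, ∏ i, x i ^ k i = 1 → k = 0) : ∃ i, NoValue (b ^ c) (x i) := by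
  by_contra hcon
  push Not at hcon
  have hne : ∀ i, ((x i : ℝ) : ℂ) ≠ 0 := fun i => by exact_mod_cast (hx i).ne'
  have h1 := values_rank (ell := lf b c) (fun j => by
      rw [exp_lf hb]
      exact z_tr hb hb1 hba hca hc) 3 (fun i => Units.mk0 _ (hne i))
    (fun i => mem_values hb hba hca (hx i) (hxa i) rfl (hcon i))
    (units_indep (fun i => rfl) hmi)
  omega

end

/-- **Towers over all algebraic bases.** -/
theorem result :
    -- (1), (2) one tower
    (∀ b c : ℝ, 0 < b → b ≠ 1 → IsAlgebraic ℚ b → IsAlgebraic ℚ c → Irrational c →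
      (∀ x : Fin 4 → ℝ, (∀ i, 0 < x i ∧ IsAlgebraic ℚ (x i)) →
        (∀ k : Fin 4 → ℤ, ∏ i, x i ^ k i = 1 → k = 0) → ∃ i, AllTranscendental (b ^ c) (x i)) ∧
      {p : ℕ | p.Prime ∧ ¬ AllTranscendental (b ^ c) p}.encard ≤ 3 ∧
      (∀ y : Fin 3 → ℝ, (∀ i, 0 < y i ∧ IsAlgebraic ℚ (y i)) →
        (∀ k : Fin 3 → ℤ, ∏ i, y i ^ k i = 1 → k = 0) → ∃ i, NoValue (b ^ c) (y i)) ∧
      {p : ℕ | p.Prime ∧ ¬ NoValue (b ^ c) p}.encard ≤ 2) ∧
    -- (3) several towers
    ∃ C : ℕ, ∀ (k : ℕ) (ell : Fin k → ℂ), (∀ j, ell j ∈ LogForms) →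
      RankAtMost (Bases ell) (k * (k + 2)) ∧
      (∀ a b : ℂ, a ≠ 0 → b ≠ 0 → ∀ E : Finset (ℂˣ × ℂˣ),
        (∀ e ∈ E, e.1 ∈ Bases ell ∧ e.2 ∈ Bases ell ∧ a * e.1 + b * e.2 = 1) →
          E.card ≤ C ^ ((k + 1) ^ 2)) ∧
      ((∀ j, Transcendental ℚ (Complex.exp (ell j))) → RankAtMost (Values ell) (2 * k) ∧
      -- (4) subvarieties of tori
      ∀ (A : Set ℂˣ) (d : ℕ), A = Bases ell ∪ Values ell →
        (∀ (s : ℕ) (P : Fin s → MvPolynomial (Fin d) ℂ),
          ∃ T : Finset ((Fin d → ℂˣ) × Finset (Fin d → ℤ)),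
            (∀ t ∈ T, (∀ i, t.1 i ∈ A) ∧ Coset t.1 t.2 ⊆ Zeros P) ∧
            ∀ x : Fin d → ℂˣ, (∀ i, x i ∈ A) → x ∈ Zeros P → ∃ t ∈ T, x ∈ Coset t.1 t.2) ∧
        (∀ (s : ℕ) (P : Fin s → MvPolynomial (Fin d) ℂ),
          (∀ y M, Coset y M ⊆ Zeros P → (Coset y M).Finite) →
            {x | (∀ i, x i ∈ A) ∧ x ∈ Zeros P}.Finite) ∧
        (∀ a : Fin d → ℂ, {x : Fin d → ℂˣ | (∀ i, x i ∈ A) ∧ ∑ i, a i * (x i : ℂ) = 1 ∧
          ∀ J : Finset (Fin d), J.Nonempty → ∑ i ∈ J, a i * (x i : ℂ) ≠ 0}.Finite)) := by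
  obtain ⟨C, hC1, hC⟩ := line_set
  refine ⟨fun b c hb hb1 hba hca hc =>
    ⟨fun x hx hmi => four hb hb1 hba hca hc (fun i => (hx i).1) (fun i => (hx i).2) hmi,
      primes_enc (n := 3) fun _ h1 h2 h3 => four hb hb1 hba hca hc h1 h2 h3,
      fun y hy hmi => three hb hb1 hba hca hc (fun i => (hy i).1) (fun i => (hy i).2) hmi,
      primes_enc (n := 2) fun _ h1 h2 h3 => three hb hb1 hba hca hc h1 h2 h3⟩,
    C, fun k ell hell => ?_⟩
  have hB := bases_rank hell
  refine ⟨hB, fun a b ha hb E hE => ?_, fun htr => ⟨values_rank htr, fun A d hA => ?_⟩⟩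
  · have h1 := hC _ _ hB a b ha hb E hE
    have e1 : k * (k + 2) + 1 = (k + 1) ^ 2 := by ring
    rwa [e1] at h1
  · rw [hA]
    refine pack (A := Bases ell ∪ Values ell) (fun x hx => ?_) (hB.union (values_rank htr)) d
    rcases hx with hx | hx
    · exact hx.1
    · exact hx.1

end Pool.Agent.Results.MP_93d8d2_nt.AlgebraicBases
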