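import Pool.Agent.U449.BV.O
import Pool.Agent.Results.MP_93d8d2_nt.MiddleEntriesRate

/-!
# Powers `v n ^ c`: not linear forms in logarithms, near the values of polynomials on arbitrary dense sets

Let `p` be a prime and `f(x, y)` ANY polynomial modulo `p` of degree at most `d` with a monomial which contains both variables (for
example `f = x y`), let `A`, `B` be ARBITRARY sets of residues modulo `p`, `g`, `h` ARBITRARY functions, and `1 ≤ W ≤ p`.
For all but `Θ |A| |B|` of the pairs `(a, b)` in `A × B`, where `Θ ^ 2 = C d e(p) (p / |A| + W p / |B|)`, `e(X) = 1 / (1 + log X) ^ (1 - ε)`, `ε > 0` arbitrary, uniformly in `v` and `c`,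
for ALL integers `n ≥ 1` at a distance of at most `W` from the least residue of `f(a, b) + g(a) + h(b)` the number `v n ^ c` is not a
linear form in `1` and logarithms of algebraic numbers.
So this holds for almost all pairs if `A`, `B` are dense and `W` is small in the same sense as the set of the exceptions is sparse.
More generally, this holds for all functions `F(a, b)` with few coincidences (`Rare`).

Since the sets and the functions `g` and `h` are arbitrary, the values have no arithmetic structure, and a value may be
taken by very many pairs. So the number of the exceptions (starting library) does not give the result directly. Proof: the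
inequality of Cauchy and Schwarz; for most pairs `a, a'` the difference `F(a, b) - F(a', b)` is small for few `b`
(`Pool.Agent.U449.BV`).
-/

set_option autoImplicit false

namespace Pool.Agent.Results.MP_93d8d2_nt.MixedOnDenseSets

open Pool.Agent.U449.BV (Rare OnDenseU on_dense_loglog residues)
open Pool.Agent.Results.MP_93d8d2_nt.MiddleEntriesRate (LogForm Free)

/-- The pairs of a complex number `v ≠ 0` and an algebraic number `c` which is not rational. -/
abbrev Exponents : Type := {w : ℂ × ℂ // w.1 ≠ 0 ∧ IsAlgebraic ℚ w.2 ∧ ∀ r : ℚ, w.2 ≠ r}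

/-- The pairs of a positive number `a ≠ 1` and a real algebraic irrational number `c`. -/
abbrev RealExponents : Type := {w : ℝ × ℝ // 0 < w.1 ∧ w.1 ≠ 1 ∧ IsAlgebraic ℚ w.2 ∧ Irrational w.2}

/-- For ALL `n ≥ 1` with `|n - x| ≤ W` the number `v n ^ c = v exp (c log n)` is not a linear form in `1` and logarithms of algebraic
numbers with algebraic coefficients. -/
def Near (w : Exponents) (W x : ℝ) : Prop :=
  ∀ n : ℕ, 1 ≤ n → |(n : ℝ) - x| ≤ W → ¬ LogForm (w.1.1 * Complex.exp (w.1.2 * ((Real.log n : ℝ) : ℂ)))

/-- For ALL `n ≥ 1` with `|n - x| ≤ W` the number `a ^ (n ^ c)` is free. -/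
def NearFree (w : RealExponents) (W x : ℝ) : Prop :=
  ∀ n : ℕ, 1 ≤ n → |(n : ℝ) - x| ≤ W → Free (w.1.1 ^ ((n : ℝ) ^ w.1.2))

/-- **Theorem.** For `0 < ε ≤ 1` the properties `Near` and `NearFree` hold for almost all values of functions of two variables with few
coincidences on arbitrary dense sets, uniformly in the exponents and factors (`OnDenseU`: with one constant for all of
them), with the density `1 / (1 + log X) ^ (1 - ε)` of exceptions.
The least residues modulo `p` of `f(a, b) + g(a) + h(b)` are such a function, bounded by `X = p`, for all primes `p`, all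
polynomials `f` modulo `p` with a monomial which contains both variables, arbitrary functions `g` and `h`, and arbitrary sets of
residues. -/
theorem result :
    (∀ ε : ℝ, 0 < ε → ε ≤ 1 → OnDenseU (fun X => 1 / (1 + Real.log X) ^ (1 - ε)) Near ∧
      OnDenseU (fun X => 1 / (1 + Real.log X) ^ (1 - ε)) NearFree) ∧
    ∀ (p : ℕ) [Fact p.Prime] (d : ℕ) (f : MvPolynomial (Fin 2) (ZMod p)), f.totalDegree ≤ d →
      (∃ m ∈ f.support, m 0 ≠ 0 ∧ m 1 ≠ 0) → ∀ (g h : ZMod p → ZMod p) (A B : Finset (ZMod p)),
        Rare d A B (fun a b => (((MvPolynomial.eval ![a, b] f + g a + h b).val : ℕ) : ℝ)) := by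
  classical
  refine ⟨fun ε hε hε1 => ?_, residues⟩
  obtain ⟨C, hC, h1, h2⟩ := MiddleEntriesRate.result
  constructor
  · refine on_dense_loglog (Good := fun (w : Exponents) n => ¬ LogForm (w.1.1 * Complex.exp (w.1.2 * ((Real.log n : ℝ) : ℂ))))
      hC 3 hε hε1 fun w x hx => ?_
    refine le_trans (le_of_eq ?_) (h1 w.1.1 w.1.2 w.2.1 w.2.2.1 w.2.2.2 x hx)
    rw [← Set.ncard_coe_finset]
    congr 2
    ext n
    simp only [Set.mem_ofPred_eq, Finset.coe_filter, Finset.mem_Icc, not_not]
    tauto
  · refine on_dense_loglog (Good := fun (w : RealExponents) n => Free (w.1.1 ^ ((n : ℝ) ^ w.1.2)))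
      hC 3 hε hε1 fun w x hx => ?_
    refine le_trans (le_of_eq ?_) (h2 w.1.1 w.1.2 w.2.1 w.2.2.1 w.2.2.2.1 w.2.2.2.2 x hx)
    rw [← Set.ncard_coe_finset]
    congr 2
    ext n
    simp only [Set.mem_ofPred_eq, Finset.coe_filter, Finset.mem_Icc]
    tauto

end Pool.Agent.Results.MP_93d8d2_nt.MixedOnDenseSets
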