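import Pool.Agent.U979.TW.TowFin
import Pool.Agent.U979.TW.Pairs

set_option autoImplicit false

/-!
# Towers of height three over finitely generated groups: a square root bound for the exceptions

The number of the problem is `a ^ (b ^ c)` with `a = b = c = √2`.  We let `b ^ c` run through a finitely
generated multiplicative group of rank `r`, and count the exceptions in ARBITRARY finite subsets.

1. Let `t_1, ..., t_r` be complex numbers such that `t ^ k = ∏ t_i ^ {k_i}` is transcendental for all
   integer vectors `k ≠ 0`, and `v ≠ 0`.  For every integer vector `δ ≠ 0` there are at most `r + 1`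
   integer vectors `k` for which both `v t ^ k` and `v t ^ {k + δ}` are linear forms in `1` and logarithms
   of algebraic numbers.  So for every finite set `X` of integer vectors the number `e` of
   `k` in `X` for which `v t ^ k` is a linear form in `1` and logarithms of algebraic numbers satisfies
   `e (e - 1) ≤ (r + 1) (|X - X| - 1)`.
2. Let `b_1, ..., b_m` be multiplicatively independent positive real algebraic numbers (for example
   different primes), `c_1, ..., c_s` real algebraic numbers such that `1, c_1, ..., c_s` are linearly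
   independent over `ℚ`, and `a ≠ 1` any positive real number.  For every integer matrix `δ ≠ 0` at least
   one of the towers `a ^ (∏ b_i ^ {∑ k_ij c_j})` for `k` and for `k + δ` is free, for all but at most
   `m s + 1` integer `m × s` matrices `k`; for all but `e` elements `k` of any finite set `X` of such
   matrices the tower is free, where `e (e - 1) ≤ (m s + 1) (|X - X| - 1)`.
3. In particular there are at most `1 + √((m s + 1) (2 K) ^ {m s})` exceptions among the `K ^ {m s}`
   matrices with entries in `{0, ..., K - 1}`.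
4. For `a` as before, `c` real algebraic irrational and any `N ≥ 1` the numbers `a ^ (d ^ c)`, `d` a
   divisor of `N`, are free with at most `1 + √((ω(N) + 1) τ(N ^ 2))` exceptions, `ω(N)` the number of the
   primes dividing `N` and `τ` the number of divisors (`√((ω + 1) 3 ^ ω) + 1` of `2 ^ ω` if `N` is
   squarefree).
5. If `x > 0` is free then `x` and all `e ^ γ x ^ δ`, `γ`, `δ ≠ 0` algebraic, are transcendental.

The case `r = 1` of 1 (with `√2` in place of the free factor) is due to Ramachandra and Srinivasan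
(1983), following Ramachandra (1968).

Proof of 1.  Let `δ ≠ 0` and let `S` be the set of the exceptional `k` such that `k + δ` is
exceptional.  By the strong six exponentials theorem of D. Roy (library) any three of the
numbers `v t ^ k`, `k` in `S`, are linearly dependent over the algebraic numbers.  Pairwise non
proportional elements of a plane over the algebraic numbers are multiplicatively independent modulo
the algebraic numbers, up to homogeneity, by unique factorisation in the ring of polynomials in one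
transcendental number (`TW.mul_indep`, `TW.aff`).  So `S` is affinely independent and has at most
`r + 1` elements; sum over `δ` in `X - X`.  For 2 Baker's theorem (library) shows that the numbers
`b_i ^ {c_j}` are multiplicatively independent modulo the algebraic numbers (`TW.baker_mat`).
-/

namespace Pool.Agent.Results.MP_93d8d2_nt.TowersInGroups

open Finset
open scoped Pointwise

/-- The linear combinations, with algebraic coefficients, of `1` and of logarithms of algebraic
numbers. -/
noncomputable def LogForms : Submodule (algebraicClosure ℚ ℂ) ℂ :=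
  Submodule.span (algebraicClosure ℚ ℂ) ({1} ∪ {z : ℂ | IsAlgebraic ℚ (Complex.exp z)})

/-- `x` is *free*: `log x` is not such a linear form, i.e. `x` is not of the form
`e ^ γ * α₁ ^ β₁ * ... * αₙ ^ βₙ` with algebraic `γ`, `αᵢ`, `βᵢ`. -/
def Free (x : ℝ) : Prop := ((Real.log x : ℝ) : ℂ) ∉ LogForms

/-- `a ^ (∏ b_i ^ {∑ k_ij c_j})` -/
noncomputable def tower {m s : ℕ} (a : ℝ) (b : Fin m → ℝ) (c : Fin s → ℝ)
    (k : Fin m × Fin s → ℤ) : ℝ := a ^ (∏ i, b i ^ (∑ j, (k (i, j) : ℝ) * c j))

/-- positive real algebraic numbers `b_i`, multiplicatively independent; real algebraic numbers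
`c_j`, linearly independent over `ℚ` together with `1` -/
def Independent {m s : ℕ} (b : Fin m → ℝ) (c : Fin s → ℝ) : Prop :=
  (∀ i, 0 < b i ∧ IsAlgebraic ℚ (b i)) ∧ (∀ n : Fin m → ℤ, ∏ i, b i ^ n i = 1 → ∀ i, n i = 0) ∧
  (∀ j, IsAlgebraic ℚ (c j)) ∧
  (∀ (q : ℚ) (p : Fin s → ℚ), ∑ j, (p j : ℝ) * c j = q → ∀ j, p j = 0)

open Classical in
/-- **Main result.** -/
theorem result :
    (∀ (r : ℕ) (t : Fin r → ℂ), (∀ k : Fin r → ℤ, k ≠ 0 → Transcendental ℚ (∏ i, t i ^ k i)) →
      ∀ v : ℂ, v ≠ 0 →
        (∀ δ : Fin r → ℤ, δ ≠ 0 → ∀ S : Finset (Fin r → ℤ), (∀ k ∈ S,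
          v * ∏ i, t i ^ k i ∈ LogForms ∧ v * ∏ i, t i ^ (k + δ) i ∈ LogForms) →
            S.card ≤ r + 1) ∧
        ∀ X : Finset (Fin r → ℤ),
          (X.filter fun k => v * ∏ i, t i ^ k i ∈ LogForms).card *
            ((X.filter fun k => v * ∏ i, t i ^ k i ∈ LogForms).card - 1) ≤
              (r + 1) * ((X - X).card - 1)) ∧
    (∀ (m s : ℕ) (b : Fin m → ℝ) (c : Fin s → ℝ), Independent b c → ∀ a : ℝ, 0 < a → a ≠ 1 →
      (∀ δ : Fin m × Fin s → ℤ, δ ≠ 0 → ∀ S : Finset (Fin m × Fin s → ℤ), (∀ k ∈ S,
        ¬ Free (tower a b c k) ∧ ¬ Free (tower a b c (k + δ))) → S.card ≤ m * s + 1) ∧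
      (∀ X : Finset (Fin m × Fin s → ℤ),
        (X.filter fun k => ¬ Free (tower a b c k)).card *
          ((X.filter fun k => ¬ Free (tower a b c k)).card - 1) ≤
            (m * s + 1) * ((X - X).card - 1)) ∧
      ∀ K : ℕ, (((Fintype.piFinset fun _ : Fin m × Fin s => Finset.Ico (0 : ℤ) K).filter
        fun k => ¬ Free (tower a b c k)).card : ℝ) ≤
          1 + Real.sqrt ((m * s + 1) * (2 * K) ^ (m * s))) ∧
    (∀ a c : ℝ, 0 < a → a ≠ 1 → IsAlgebraic ℚ c → Irrational c → ∀ N : ℕ, 0 < N →
      ((N.divisors.filter fun d : ℕ => ¬ Free (a ^ ((d : ℝ) ^ c))).card : ℝ) ≤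
        1 + Real.sqrt ((N.primeFactors.card + 1) * (N ^ 2).divisors.card)) ∧
    (∀ x : ℝ, 0 < x → Free x → Transcendental ℚ x ∧ ∀ γ δ : ℂ, IsAlgebraic ℚ γ →
      IsAlgebraic ℚ δ → δ ≠ 0 → Transcendental ℚ (Complex.exp (γ + δ * ((Real.log x : ℝ) : ℂ)))) := by
  have hfree : ∀ x : ℝ, (¬ Free x) = (((Real.log x : ℝ) : ℂ) ∈ Pool.Agent.H301R2.SSE.Lt) := by
    intro x
    unfold Free
    rw [not_not]
    rfl
  refine ⟨?_, ?_, ?_, ?_⟩
  · intro r t ht v hv
    refine ⟨?_, ?_⟩
    · intro δ hδ S hS
      have h := Pool.Agent.U979.TW.group_pairs t ht v hv δ hδ S hS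
      rw [Fintype.card_fin] at h
      exact h
    · intro X
      have h := Pool.Agent.U979.TW.group_bound t ht v hv X
      rw [Fintype.card_fin] at h
      exact h
  · intro m s b c hbc a ha ha1
    have h1 : ∀ X : Finset (Fin m × Fin s → ℤ),
        (X.filter fun k => ¬ Free (tower a b c k)).card *
          ((X.filter fun k => ¬ Free (tower a b c k)).card - 1) ≤
            (m * s + 1) * ((X - X).card - 1) := by
      intro X
      simp only [hfree]
      exact Pool.Agent.U979.TW.towers a ha ha1 b (fun i => (hbc.1 i).1) (fun i => (hbc.1 i).2)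
        hbc.2.1 c hbc.2.2.1 hbc.2.2.2 X
    refine ⟨?_, h1, fun K => ?_⟩
    · intro δ hδ S hS
      simp only [hfree] at hS
      exact Pool.Agent.U979.TW.tower_pairs a ha ha1 b (fun i => (hbc.1 i).1) (fun i => (hbc.1 i).2)
        hbc.2.1 c hbc.2.2.1 hbc.2.2.2 δ hδ S hS
    have h2 := h1 (Fintype.piFinset fun _ : Fin m × Fin s => Finset.Ico (0 : ℤ) K)
    have h3 := Pool.Agent.U979.TW.box_diff (ι := Fin m × Fin s) K
    rw [Fintype.card_prod, Fintype.card_fin, Fintype.card_fin] at h3
    have h4 := Pool.Agent.U979.TW.le_sqrt_of (h2.trans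
      (Nat.mul_le_mul_left (m * s + 1) ((Nat.sub_le _ _).trans h3)))
    push_cast at h4
    exact h4
  · intro a c ha ha1 hc hci N hN
    have h1 := Pool.Agent.U979.TW.divs a c ha ha1 hc hci N hN
    simp only [hfree]
    have h4 := Pool.Agent.U979.TW.le_sqrt_of (h1.trans
      (Nat.mul_le_mul_left (N.primeFactors.card + 1) (Nat.sub_le _ _)))
    push_cast at h4
    exact h4
  · intro x hx hf
    have key : ∀ γ δ : ℂ, IsAlgebraic ℚ γ → IsAlgebraic ℚ δ → δ ≠ 0 →
        Transcendental ℚ (Complex.exp (γ + δ * ((Real.log x : ℝ) : ℂ))) := by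
      intro γ δ hγ hδ hδ0 halg
      apply hf
      have h1 : (γ + δ * ((Real.log x : ℝ) : ℂ)) ∈ Pool.Agent.H301R2.SSE.Lt :=
        Pool.Agent.H301R2.SSE.Lt_log halg
      have h2 : ((Real.log x : ℝ) : ℂ) =
          δ⁻¹ * (γ + δ * ((Real.log x : ℝ) : ℂ)) + (-(δ⁻¹ * γ)) := by
        field_simp
        ring
      change ((Real.log x : ℝ) : ℂ) ∈ Pool.Agent.H301R2.SSE.Lt
      rw [h2]
      exact Submodule.add_mem _ (Pool.Agent.H301R2.SSE.Lt_mul hδ.inv h1)
        (Pool.Agent.H301R2.SSE.Lt_alg (hδ.inv.mul hγ).neg)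
    refine ⟨?_, key⟩
    intro halg
    apply key 0 1 isAlgebraic_zero isAlgebraic_one one_ne_zero
    rw [zero_add, one_mul, ← Complex.ofReal_exp, Real.exp_log hx]
    exact halg.algebraMap (A := ℂ)

end Pool.Agent.Results.MP_93d8d2_nt.TowersInGroups
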