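import Pool.Agent.U979.TS.Ind

set_option autoImplicit false

/-!
# Towers with translated and multiplied exponents: at most two classes of exceptions

The number of the problem is `w = √2 ^ z`, `z = √2 ^ √2`. We compare the numbers `a ^ (z + α)`, and the
numbers `a ^ (β z)`, for ALL algebraic bases `a > 0`, `a ≠ 1`, and ALL algebraic `α`, `β ≠ 0`.

1. (Six exponentials with algebraic translations.) Let `t` be a transcendental complex number,
   `α_1, α_2, α_3` algebraic, and let all the numbers `e ^ {l_i}`, `e ^ {(t + α_i) l_i}` be algebraic. Then there is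
   a nontrivial rational relation `q_1 l_1 + q_2 l_2 + q_3 l_3 = 0` such that `α_i - α_j` is rational for all
   `i, j` with `q_i, q_j ≠ 0`. In other words: the spaces
   `W_α = {l : e ^ l` and `e ^ {(t + α) l}` algebraic`}`, one for each class of the
   algebraic numbers `α` modulo the rational numbers, are linearly independent over `ℚ`, and the sum
   of their dimensions is at most two. For `α_1 = α_2 = α_3 = 0` this is the six exponentials theorem.
2. The same for `e ^ {β_i t l_i}`, `β_i ≠ 0` algebraic, and the quotients `β_i / β_j`.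
3. Let `t` be real and transcendental. If `α₀` is exceptional (`a ^ (t + α₀)` is algebraic for SOME
   algebraic `a > 0`, `a ≠ 1`) then there is an exceptional `ε` such that all exceptional `α` are in `α₀ + ℚ` or
   in `ε + ℚ`; if `a ^ (t + α₀)` is algebraic for two multiplicatively independent algebraic `a > 0`, then all
   are in `α₀ + ℚ`. The same for the exponents `β t`.
4. This holds for `t = b ^ c`, `b > 0` algebraic, `b ≠ 1`, `c` real algebraic irrational (Gelfond and
   Schneider), for example for `t = z`.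
5. If `α, α'` and `α - α'` are irrational real algebraic numbers, then for all algebraic `a, a' > 0`,
   different from `1`, one of the numbers `w`, `a ^ (z + α)`, `a' ^ (z + α')` is transcendental; if `β, β'` and
   `β / β'` are irrational real algebraic numbers, then one of the numbers `w`, `a ^ (β z)`, `a' ^ (β' z)` is
   transcendental.

Proof of 1. By the strong six exponentials theorem of D. Roy (library) the `l_i` are linearly dependent
over the algebraic numbers, hence over `ℚ` by Baker's theorem (library). Take a rational relation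
`∑ q_i l_i = 0` with minimal support. Multiplied by `t + α_k` it shows that `∑ q_i (α_i - α_k) l_i` is the
logarithm of an algebraic number, `k` in the support; by Baker's theorem and the minimality the
numbers `q_i (α_i - α_k)` are rational.
-/

namespace Pool.Agent.Results.MP_93d8d2_nt.TranslatedTowers

/-- an algebraic real number `a > 0`, `a ≠ 1` -/
def Base (a : ℝ) : Prop := 0 < a ∧ a ≠ 1 ∧ IsAlgebraic ℚ a

/-- `α` is algebraic and `a ^ (t + α)` is algebraic for some base `a` -/
def AddExceptional (t α : ℝ) : Prop :=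
  IsAlgebraic ℚ α ∧ ∃ a : ℝ, Base a ∧ IsAlgebraic ℚ (a ^ (t + α))

/-- `β ≠ 0` is algebraic and `a ^ (β t)` is algebraic for some base `a` -/
def MulExceptional (t β : ℝ) : Prop :=
  IsAlgebraic ℚ β ∧ β ≠ 0 ∧ ∃ a : ℝ, Base a ∧ IsAlgebraic ℚ (a ^ (β * t))

/-- no product of powers is `1` -/
def Independent (a b : ℝ) : Prop := ∀ m n : ℤ, a ^ m * b ^ n = 1 → m = 0 ∧ n = 0

/-- the statements 3 -/
def AtMostTwoClasses (t : ℝ) : Prop :=
  (∀ α₀ : ℝ, AddExceptional t α₀ → ∃ ε : ℝ, AddExceptional t ε ∧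
    ∀ α : ℝ, AddExceptional t α → (∃ q : ℚ, α = α₀ + q) ∨ ∃ q : ℚ, α = ε + q) ∧
  (∀ α₀ a b : ℝ, IsAlgebraic ℚ α₀ → Base a → Base b → Independent a b →
    IsAlgebraic ℚ (a ^ (t + α₀)) → IsAlgebraic ℚ (b ^ (t + α₀)) →
    ∀ α : ℝ, AddExceptional t α → ∃ q : ℚ, α = α₀ + q) ∧
  (∀ β₀ : ℝ, MulExceptional t β₀ → ∃ ε : ℝ, MulExceptional t ε ∧
    ∀ β : ℝ, MulExceptional t β → (∃ q : ℚ, β = q * β₀) ∨ ∃ q : ℚ, β = q * ε) ∧
  (∀ β₀ a b : ℝ, IsAlgebraic ℚ β₀ → β₀ ≠ 0 → Base a → Base b → Independent a b →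
    IsAlgebraic ℚ (a ^ (β₀ * t)) → IsAlgebraic ℚ (b ^ (β₀ * t)) →
    ∀ β : ℝ, MulExceptional t β → ∃ q : ℚ, β = q * β₀)

open Pool.Agent.U979.TS in
theorem add_part {t : ℝ} (ht : Transcendental ℚ t) (α₀ : ℝ) (h0 : AddExceptional t α₀) :
    ∃ ε : ℝ, AddExceptional t ε ∧
    ∀ α : ℝ, AddExceptional t α → (∃ q : ℚ, α = α₀ + q) ∨ ∃ q : ℚ, α = ε + q := by
  by_cases hex : ∃ ε : ℝ, AddExceptional t ε ∧ Irrational (ε - α₀)
  · obtain ⟨ε, hε, hi⟩ := hex
    refine ⟨ε, hε, fun α hα => ?_⟩
    by_contra hcon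
    push Not at hcon
    obtain ⟨h1, a1, ha1, hb1⟩ := h0
    obtain ⟨h2, a2, ha2, hb2⟩ := hε
    obtain ⟨h3, a3, ha3, hb3⟩ := hα
    have i1 : Irrational (α - α₀) := by
      rintro ⟨q, hq⟩
      exact hcon.1 q (by rw [hq]; ring)
    have i2 : Irrational (α - ε) := by
      rintro ⟨q, hq⟩
      exact hcon.2 q (by rw [hq]; ring)
    have neg : ∀ x y : ℝ, Irrational (x - y) → Irrational (y - x) := by
      intro x y h
      have h4 := h.neg
      rwa [neg_sub] at h4
    obtain ⟨i, hi⟩ := add_real ht ![α₀, ε, α] ![a1, a2, a3]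
      (by intro i; fin_cases i; exacts [h1, h2, h3])
      (by intro i; fin_cases i; exacts [ha1, ha2, ha3])
      (by
        intro i j hij
        fin_cases i <;> fin_cases j <;>
          first
          | exact absurd rfl hij
          | exact i1
          | exact i2
          | exact hi
          | exact neg _ _ i1
          | exact neg _ _ i2
          | exact neg _ _ hi)
    fin_cases i
    exacts [hi hb1, hi hb2, hi hb3]
  · push Not at hex
    refine ⟨α₀, h0, fun α hα => Or.inl ?_⟩
    have h1 := hex α hα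
    unfold Irrational at h1
    rw [not_not] at h1
    obtain ⟨q, hq⟩ := h1
    exact ⟨q, by rw [hq]; ring⟩

open Pool.Agent.U979.TS in
theorem mul_part {t : ℝ} (ht : Transcendental ℚ t) (β₀ : ℝ) (h0 : MulExceptional t β₀) :
    ∃ ε : ℝ, MulExceptional t ε ∧
    ∀ β : ℝ, MulExceptional t β → (∃ q : ℚ, β = q * β₀) ∨ ∃ q : ℚ, β = q * ε := by
  by_cases hex : ∃ ε : ℝ, MulExceptional t ε ∧ Irrational (ε / β₀)
  · obtain ⟨ε, hε, hi⟩ := hex
    refine ⟨ε, hε, fun β hβ => ?_⟩
    by_contra hcon
    push Not at hcon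
    obtain ⟨h1, n1, a1, ha1, hb1⟩ := h0
    obtain ⟨h2, n2, a2, ha2, hb2⟩ := hε
    obtain ⟨h3, n3, a3, ha3, hb3⟩ := hβ
    have i1 : Irrational (β / β₀) := by
      rintro ⟨q, hq⟩
      exact hcon.1 q (by rw [hq]; field_simp)
    have i2 : Irrational (β / ε) := by
      rintro ⟨q, hq⟩
      exact hcon.2 q (by rw [hq]; field_simp)
    have inv : ∀ x y : ℝ, Irrational (x / y) → Irrational (y / x) := by
      intro x y h
      have h4 := h.inv
      rwa [inv_div] at h4
    obtain ⟨i, hi⟩ := mul_real ht ![β₀, ε, β] ![a1, a2, a3]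
      (by intro i; fin_cases i; exacts [h1, h2, h3])
      (by intro i; fin_cases i; exacts [n1, n2, n3])
      (by intro i; fin_cases i; exacts [ha1, ha2, ha3])
      (by
        intro i j hij
        fin_cases i <;> fin_cases j <;>
          first
          | exact absurd rfl hij
          | exact i1
          | exact i2
          | exact hi
          | exact inv _ _ i1
          | exact inv _ _ i2
          | exact inv _ _ hi)
    fin_cases i
    exacts [hi hb1, hi hb2, hi hb3]
  · push Not at hex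
    refine ⟨β₀, h0, fun β hβ => Or.inl ?_⟩
    have h1 := hex β hβ
    unfold Irrational at h1
    rw [not_not] at h1
    obtain ⟨q, hq⟩ := h1
    have h2 := h0.2.1
    exact ⟨q, by rw [hq]; field_simp⟩

open Pool.Agent.U979.TS in
theorem both {t : ℝ} (ht : Transcendental ℚ t) : AtMostTwoClasses t := by
  refine ⟨add_part ht, ?_, mul_part ht, ?_⟩
  · rintro α₀ a b h0 ha hb hab h1 h2 α ⟨h3, c, hc, h4⟩
    exact add_rank ht h0 h3 ha hb hc hab h1 h2 h4
  · rintro β₀ a b h0 n0 ha hb hab h1 h2 β ⟨h3, n3, c, hc, h4⟩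
    exact mul_rank ht h0 n0 h3 n3 ha hb hc hab h1 h2 h4

theorem base_sqrt_two : Base (Real.sqrt 2) := by
  refine ⟨by positivity, ?_, ?_⟩
  · intro h
    have h1 : Real.sqrt 2 ^ 2 = 1 := by rw [h]; norm_num
    rw [Real.sq_sqrt (by norm_num)] at h1
    norm_num at h1
  · refine IsAlgebraic.of_pow (n := 2) (by norm_num) ?_
    rw [Real.sq_sqrt (by norm_num)]
    have h2 := isAlgebraic_algebraMap (R := ℚ) (A := ℝ) 2
    simpa using h2

open Pool.Agent.U979.TS in
/-- **Main result.** -/
theorem result :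
    (∀ t : ℂ, Transcendental ℚ t → ∀ l : Fin 3 → ℂ, (∀ i, IsAlgebraic ℚ (Complex.exp (l i))) →
      (∀ α : Fin 3 → ℂ, (∀ i, IsAlgebraic ℚ (α i)) →
        (∀ i, IsAlgebraic ℚ (Complex.exp ((t + α i) * l i))) →
        ∃ q : Fin 3 → ℚ, (∃ i, q i ≠ 0) ∧
          (∀ i j, q i ≠ 0 → q j ≠ 0 → ∃ r : ℚ, (r : ℂ) = α i - α j) ∧
          ∑ i, (q i : ℂ) * l i = 0) ∧
      (∀ β : Fin 3 → ℂ, (∀ i, IsAlgebraic ℚ (β i)) → (∀ i, β i ≠ 0) →
        (∀ i, IsAlgebraic ℚ (Complex.exp (β i * t * l i))) →
        ∃ q : Fin 3 → ℚ, (∃ i, q i ≠ 0) ∧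
          (∀ i j, q i ≠ 0 → q j ≠ 0 → ∃ r : ℚ, (r : ℂ) = β i / β j) ∧
          ∑ i, (q i : ℂ) * l i = 0)) ∧
    (∀ t : ℝ, Transcendental ℚ t → AtMostTwoClasses t) ∧
    (∀ b c : ℝ, Base b → IsAlgebraic ℚ c → Irrational c →
      Transcendental ℚ (b ^ c) ∧ AtMostTwoClasses (b ^ c)) ∧
    (∀ α α' a a' : ℝ, IsAlgebraic ℚ α → IsAlgebraic ℚ α' → Irrational α → Irrational α' →
      Irrational (α - α') → Base a → Base a' →
      Transcendental ℚ (Real.sqrt 2 ^ (Real.sqrt 2 ^ Real.sqrt 2)) ∨
      Transcendental ℚ (a ^ (Real.sqrt 2 ^ Real.sqrt 2 + α)) ∨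
      Transcendental ℚ (a' ^ (Real.sqrt 2 ^ Real.sqrt 2 + α'))) ∧
    (∀ β β' a a' : ℝ, IsAlgebraic ℚ β → IsAlgebraic ℚ β' → Irrational β → Irrational β' →
      Irrational (β / β') → Base a → Base a' →
      Transcendental ℚ (Real.sqrt 2 ^ (Real.sqrt 2 ^ Real.sqrt 2)) ∨
      Transcendental ℚ (a ^ (β * Real.sqrt 2 ^ Real.sqrt 2)) ∨
      Transcendental ℚ (a' ^ (β' * Real.sqrt 2 ^ Real.sqrt 2))) := by
  have hz : Transcendental ℚ (Real.sqrt 2 ^ Real.sqrt 2) :=
    Pool.Agent.U979.TW.gs base_sqrt_two.1 base_sqrt_two.2.1 base_sqrt_two.2.2 base_sqrt_two.2.2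
      irrational_sqrt_two
  refine ⟨fun t ht l hl => ⟨fun α hα hm => add_cplx ht α l hα hl hm,
    fun β hβ hβ0 hm => mul_cplx ht β l hβ hβ0 hl hm⟩, fun t ht => both ht, ?_, ?_, ?_⟩
  · intro b c hb hc hci
    have h1 : Transcendental ℚ (b ^ c) := Pool.Agent.U979.TW.gs hb.1 hb.2.1 hb.2.2 hc hci
    exact ⟨h1, both h1⟩
  · intro α α' a a' hα hα' hi hi' hii ha ha'
    have neg : ∀ x y : ℝ, Irrational (x - y) → Irrational (y - x) := by
      intro x y h
      have h4 := h.neg
      rwa [neg_sub] at h4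
    have i1 : Irrational (α - 0) := by rwa [sub_zero]
    have i2 : Irrational (α' - 0) := by rwa [sub_zero]
    obtain ⟨i, h⟩ := add_real hz ![0, α, α'] ![Real.sqrt 2, a, a']
      (by intro i; fin_cases i; exacts [isAlgebraic_zero, hα, hα'])
      (by intro i; fin_cases i; exacts [base_sqrt_two, ha, ha'])
      (by
        intro i j hij
        fin_cases i <;> fin_cases j <;>
          first
          | exact absurd rfl hij
          | exact i1
          | exact i2
          | exact hii
          | exact neg _ _ i1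
          | exact neg _ _ i2
          | exact neg _ _ hii)
    fin_cases i
    · left
      simpa using h
    · exact Or.inr (Or.inl h)
    · exact Or.inr (Or.inr h)
  · intro β β' a a' hβ hβ' hi hi' hii ha ha'
    have inv : ∀ x y : ℝ, Irrational (x / y) → Irrational (y / x) := by
      intro x y h
      have h4 := h.inv
      rwa [inv_div] at h4
    have i1 : Irrational (β / 1) := by rwa [div_one]
    have i2 : Irrational (β' / 1) := by rwa [div_one]
    obtain ⟨i, h⟩ := mul_real hz ![1, β, β'] ![Real.sqrt 2, a, a']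
      (by intro i; fin_cases i; exacts [isAlgebraic_one, hβ, hβ'])
      (by intro i; fin_cases i; exacts [one_ne_zero, hi.ne_zero, hi'.ne_zero])
      (by intro i; fin_cases i; exacts [base_sqrt_two, ha, ha'])
      (by
        intro i j hij
        fin_cases i <;> fin_cases j <;>
          first
          | exact absurd rfl hij
          | exact i1
          | exact i2
          | exact hii
          | exact inv _ _ i1
          | exact inv _ _ i2
          | exact inv _ _ hii)
    fin_cases i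
    · left
      simpa using h
    · exact Or.inr (Or.inl h)
    · exact Or.inr (Or.inr h)

end Pool.Agent.Results.MP_93d8d2_nt.TranslatedTowers
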